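import Pool.Agent.H27.L1.H34.GU.Targets1

/-!
Row FR2: the Fricke correspondence does not increase the measure.
-/

set_option autoImplicit false

namespace Pool.Agent.H27.L1.H84.GU

open MeasureTheory Pool.Agent.H27.L1.H34.GM Pool.Agent.H27.L1.H34.GZ Pool.Agent.H27.L1.H34.GU

/-- left multiplication -/
def lm {m : ℕ} (a : Mat m) (z : V m) : V m := fun i j => (a * mt z) i j

lemma mt_lm {m : ℕ} (a : Mat m) (z : V m) : mt (lm a z) = a * mt z := by
  ext i j; rfl

lemma lm_lm {m : ℕ} (a b : Mat m) (z : V m) : lm a (lm b z) = lm (a * b) z := by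
  funext i j
  show (a * mt (lm b z)) i j = (a * b * mt z) i j
  rw [mt_lm, Matrix.mul_assoc]

lemma lm_one {m : ℕ} (z : V m) : lm (1 : Mat m) z = z := by
  funext i j
  show ((1 : Mat m) * mt z) i j = z i j
  rw [Matrix.one_mul]; rfl

lemma lm_smul {m : ℕ} (c : ℝ) (a : Mat m) (z : V m) : lm (c • a) z = c • lm a z := by
  funext i j
  show ((c • a) * mt z) i j = c * (a * mt z) i j
  rw [Matrix.smul_mul]; rfl

lemma mt_inj {m : ℕ} {z w : V m} (h : mt z = mt w) : z = w := by
  funext i j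
  exact congrFun (congrFun h i) j

lemma meas_lm {m : ℕ} (a : Mat m) : Measurable (lm a) := by
  apply Continuous.measurable
  unfold lm
  refine continuous_pi fun i => continuous_pi fun j => ?_
  simp only [Matrix.mul_apply, Matrix.of_apply]
  fun_prop

lemma cR_mul {m : ℕ} (α β : ZM m) : cR (α * β) = cR α * cR β :=
  map_mul (Int.castRingHom ℝ).mapMatrix α β

lemma cR_one {m : ℕ} : cR (1 : ZM m) = 1 :=
  map_one (Int.castRingHom ℝ).mapMatrix

lemma cR_det {m : ℕ} (α : ZM m) : (cR α).det = ((α.det : ℤ) : ℝ) :=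
  ((Int.castRingHom ℝ).map_det α).symm

lemma cR_inj {m : ℕ} {α β : ZM m} (h : cR α = cR β) : α = β := by
  ext i j
  have := congrFun (congrFun h i) j
  simp only [cR, Matrix.map_apply] at this
  exact_mod_cast this

lemma cQ_mul {m N : ℕ} (α β : ZM m) : cQ N (α * β) = cQ N α * cQ N β :=
  map_mul (Int.castRingHom (ZMod N)).mapMatrix α β

lemma cQ_one {m N : ℕ} : cQ N (1 : ZM m) = 1 :=
  map_one (Int.castRingHom (ZMod N)).mapMatrix

lemma ac_mul {m N : ℕ} (α β : ZM m) (x : VN m N) : ac N (α * β) x = ac N α (ac N β x) := by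
  unfold ac
  rw [cQ_mul, Matrix.mulVec_mulVec]

lemma ac_one {m N : ℕ} (x : VN m N) : ac N (1 : ZM m) x = x := by
  unfold ac
  rw [cQ_one, Matrix.one_mulVec]

lemma pr_of_ac {m N : ℕ} (α : ZM m) (x : VN m N) (h : Pr (ac N α x)) : Pr x := by
  obtain ⟨u, hu⟩ := h
  refine ⟨Matrix.vecMul u (cQ N α), ?_⟩
  have : dt (Matrix.vecMul u (cQ N α)) x = dt u (ac N α x) :=
    (Matrix.dotProduct_mulVec u (cQ N α) x).symm
  rw [this, hu]

lemma un_det {m : ℕ} {γ : ZM m} (h : IsUnit γ) : IsUnit γ.det :=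
  (Matrix.isUnit_iff_isUnit_det γ).1 h

lemma un_abs {m : ℕ} {γ : ZM m} (h : IsUnit γ) : γ.det.natAbs = 1 :=
  Int.isUnit_iff_natAbs_eq.1 (un_det h)

lemma cR_det_ne {m : ℕ} {γ : ZM m} (h : γ.det.natAbs ≠ 0) : (cR γ).det ≠ 0 := by
  rw [cR_det]
  intro h0
  apply h
  rw [Int.natAbs_eq_zero]
  exact_mod_cast h0

lemma cR_abs {m : ℕ} (γ : ZM m) : |(cR γ).det| = (γ.det.natAbs : ℝ) := by
  rw [cR_det, Nat.cast_natAbs, Int.cast_abs]

lemma so_apply {m : ℕ} (c : ℤ) (i j : Fin m) :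
    (c • (1 : ZM m)) i j = if i = j then c else 0 := by
  rw [Matrix.smul_apply, Matrix.one_apply, smul_eq_mul, mul_ite, mul_one, mul_zero]

/-- the class of the multiples of `N` -/
lemma dvd_of_cQ {m N : ℕ} (β : ZM m) (h : cQ N β = 0) : ∃ U : ZM m, β = (N : ℤ) • U := by
  have h1 : ∀ i j, ∃ u : ℤ, β i j = (N : ℤ) * u := by
    intro i j
    have h2 : ((β i j : ℤ) : ZMod N) = 0 := by
      have := congrFun (congrFun h i) j
      simpa [cQ] using this
    exact (ZMod.intCast_zmod_eq_zero_iff_dvd (β i j) N).1 h2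
  choose u hu using h1
  refine ⟨Matrix.of u, ?_⟩
  ext i j
  simp [hu i j]

lemma mul_left_inj' {m : ℕ} {a b c : Mat m} (ha : a.det ≠ 0) (h : a * b = a * c) : b = c := by
  have h1 : a⁻¹ * a = 1 := Matrix.nonsing_inv_mul a (isUnit_iff_ne_zero.2 ha)
  calc b = a⁻¹ * a * b := by rw [h1, Matrix.one_mul]
    _ = a⁻¹ * (a * c) := by rw [Matrix.mul_assoc, h]
    _ = c := by rw [← Matrix.mul_assoc, h1, Matrix.one_mul]

lemma mul_right_inj' {m : ℕ} {a b c : Mat m} (ha : a.det ≠ 0) (h : b * a = c * a) : b = c := by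
  have h1 : a * a⁻¹ = 1 := Matrix.mul_nonsing_inv a (isUnit_iff_ne_zero.2 ha)
  calc b = b * (a * a⁻¹) := by rw [h1, Matrix.mul_one]
    _ = c * a * a⁻¹ := by rw [← Matrix.mul_assoc, h]
    _ = c := by rw [Matrix.mul_assoc, h1, Matrix.mul_one]

/-- the uniqueness claim -/
lemma uniq {m N : ℕ} [NeZero N] {H : VN m N → ZM m} {xv : VN m N → VN m N}
    (hF : Frk m N H xv) {D : Set (V m)} (hD : DomZ m D) {v v' : VN m N} (hv : Pr v)
    (hv' : Pr v') {γ γ' : ZM m} (hγ : IsUnit γ) (hγ' : IsUnit γ') {z h h' : V m} {c : ℝ}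
    (hc : 0 < c) (hh : h ∈ D) (hh' : h' ∈ D)
    (e1 : cR γ * mt z = c • (cR (H v) * mt h)) (e2 : cR γ' * mt z = c • (cR (H v') * mt h'))
    {x : VN m N} (x1 : ac N γ x = xv v) (x2 : ac N γ' x = xv v') : v = v' ∧ γ = γ' := by
  have hN0 : (N : ℝ) ≠ 0 := Nat.cast_ne_zero.2 (NeZero.ne N)
  have dH : (cR (H v)).det ≠ 0 := cR_det_ne (by
    rw [hF.det v hv]; exact pow_ne_zero _ (NeZero.ne N))
  have dH' : (cR (H v')).det ≠ 0 := cR_det_ne (by
    rw [hF.det v' hv']; exact pow_ne_zero _ (NeZero.ne N))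
  -- `δ = γ' γ⁻¹`
  obtain ⟨δ, hδu, hδ⟩ : ∃ δ : ZM m, IsUnit δ ∧ δ * γ = γ' := by
    refine ⟨γ' * γ⁻¹, hγ'.mul ((Matrix.isUnit_nonsing_inv_iff).2 hγ), ?_⟩
    rw [Matrix.mul_assoc, Matrix.nonsing_inv_mul _ (un_det hγ), Matrix.mul_one]
  have x3 : ac N δ (xv v) = xv v' := by
    rw [← x1, ← ac_mul, hδ, x2]
  -- the integral inverse of `H v'`
  obtain ⟨φ, hφ, hφx⟩ := hF.dvd v' hv' ((N : ℤ) • (1 : ZM m)) 0 (by
    ext i j
    show ((((N : ℤ) • (1 : ZM m)) i j : ℤ) : ZMod N) = (0 : VN m N) i * v' j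
    rw [so_apply]
    split_ifs <;> simp)
  have hφR : cR φ * cR (H v') = (N : ℝ) • (1 : Mat m) := by
    rw [← cR_mul, ← hφ]
    ext i j
    show ((((N : ℤ) • (1 : ZM m)) i j : ℤ) : ℝ) = (N : ℝ) * (1 : Mat m) i j
    rw [so_apply, Matrix.one_apply]
    split_ifs <;> simp
  have hφR2 : cR (H v') * cR φ = (N : ℝ) • (1 : Mat m) := by
    have h1 : ((N : ℝ)⁻¹ • cR φ) * cR (H v') = 1 := by
      rw [Matrix.smul_mul, hφR, smul_smul, inv_mul_cancel₀ hN0, one_smul]
    have h2 := mul_eq_one_comm.1 h1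
    rw [Matrix.mul_smul] at h2
    calc cR (H v') * cR φ = (N : ℝ) • ((N : ℝ)⁻¹ • (cR (H v') * cR φ)) := by
          rw [smul_smul, mul_inv_cancel₀ hN0, one_smul]
      _ = _ := by rw [h2]
  have hzero : cQ N (φ * δ * H v) = 0 := by
    rw [cQ_mul, cQ_mul, hF.red v hv, Matrix.mul_assoc, Matrix.mul_vecMulVec,
      Matrix.mul_vecMulVec]
    have h1 : (cQ N δ).mulVec (xv v) = xv v' := x3
    have h2 : (cQ N φ).mulVec (xv v') = 0 := hφx
    rw [h1, h2]
    ext i j
    simp [Matrix.vecMulVec]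
  obtain ⟨U, hU⟩ := dvd_of_cQ _ hzero
  have hUR : cR φ * cR δ * cR (H v) = (N : ℝ) • cR U := by
    rw [← cR_mul, ← cR_mul, hU]
    ext i j
    show ((((N : ℤ) • U) i j : ℤ) : ℝ) = (N : ℝ) * ((U i j : ℤ) : ℝ)
    rw [Matrix.smul_apply, smul_eq_mul]
    push_cast
    rfl
  have hE : cR (H v') * cR U = cR δ * cR (H v) := by
    have h1 : (N : ℝ) • (cR (H v') * cR U) = (N : ℝ) • (cR δ * cR (H v)) := by
      rw [← Matrix.mul_smul, ← hUR, ← Matrix.mul_assoc, ← Matrix.mul_assoc, hφR2,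
        Matrix.smul_mul, Matrix.one_mul, Matrix.smul_mul]
    exact smul_right_injective _ hN0 h1
  have hEZ : H v' * U = δ * H v := cR_inj (by rw [cR_mul, cR_mul, hE])
  have hUu : IsUnit U := by
    rw [Matrix.isUnit_iff_isUnit_det, Int.isUnit_iff_natAbs_eq]
    have h1 := congrArg (fun M : ZM m => M.det.natAbs) hEZ
    simp only [Matrix.det_mul, Int.natAbs_mul, hF.det v hv, hF.det v' hv', un_abs hδu,
      one_mul] at h1
    have h2 : 0 < N ^ (m - 1) := pow_pos (Nat.pos_of_ne_zero (NeZero.ne N)) _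
    exact Nat.eq_of_mul_eq_mul_left h2 (by rw [h1, mul_one])
  have hh2 : mt h' = cR U * mt h := by
    apply mul_left_inj' dH'
    have h1 : c • (cR (H v') * mt h') = c • (cR (H v') * (cR U * mt h)) := by
      rw [← e2, ← hδ, cR_mul, Matrix.mul_assoc, e1, Matrix.mul_smul, ← Matrix.mul_assoc,
        ← Matrix.mul_assoc, hE]
    exact smul_right_injective _ hc.ne' h1
  obtain ⟨s1, s2⟩ := hD.shell h hh
  have hU1 : (1 : ZM m) = U := by
    refine (hD.fund h s1 s2).unique ⟨isUnit_one, ?_⟩ ⟨hUu, ?_⟩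
    · have : (fun i j => (cR (1 : ZM m) * mt h) i j : V m) = h := by
        rw [cR_one]; exact lm_one h
      rw [this]; exact hh
    · have : (fun i j => (cR U * mt h) i j : V m) = h' := by
        apply mt_inj
        rw [hh2]; rfl
      rw [this]; exact hh'
  rw [← hU1, Matrix.mul_one] at hEZ
  have hvv : v = v' := by
    have h1 : Matrix.vecMulVec (xv v') v' = Matrix.vecMulVec (xv v') v := by
      rw [← hF.red v' hv', hEZ, cQ_mul, hF.red v hv, Matrix.mul_vecMulVec]
      have h1 : (cQ N δ).mulVec (xv v) = xv v' := x3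
      rw [h1]
    obtain ⟨u, hu⟩ := hF.pr v' hv'
    funext j
    have h2 : ∀ i, xv v' i * v' j = xv v' i * v j := fun i => by
      have := congrFun (congrFun h1 i) j
      simpa [Matrix.vecMulVec] using this
    calc v j = dt u (xv v') * v j := by rw [hu, one_mul]
      _ = ∑ i, u i * (xv v' i * v j) := by
          unfold dt; rw [Finset.sum_mul]
          exact Finset.sum_congr rfl fun i _ => by ring
      _ = ∑ i, u i * (xv v' i * v' j) := Finset.sum_congr rfl fun i _ => by rw [h2 i]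
      _ = dt u (xv v') * v' j := by
          unfold dt; rw [Finset.sum_mul]
          exact Finset.sum_congr rfl fun i _ => by ring
      _ = v' j := by rw [hu, one_mul]
  refine ⟨hvv, ?_⟩
  subst hvv
  have h3 : δ = 1 := by
    apply cR_inj
    apply mul_right_inj' dH
    rw [← cR_mul, ← hEZ, cR_one, Matrix.one_mul]
  rw [h3, Matrix.one_mul] at hδ
  exact hδ

lemma aN_mul {m : ℕ} (a b : Mat m) : aN (a * b) = aN a * aN b := by
  unfold aN
  rw [Matrix.det_mul, abs_mul, Real.mul_rpow (abs_nonneg _) (abs_nonneg _)]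

lemma aN_smul {m : ℕ} (hm : 1 ≤ m) {c : ℝ} (hc : 0 < c) (a : Mat m) :
    aN (c • a) = c * aN a := by
  have hm0 : (m : ℝ) ≠ 0 := by positivity
  unfold aN
  rw [Matrix.det_smul, abs_mul, Real.mul_rpow (abs_nonneg _) (abs_nonneg _), Fintype.card_fin,
    abs_of_pos (pow_pos hc m), ← Real.rpow_natCast, ← Real.rpow_mul hc.le,
    mul_one_div_cancel hm0, Real.rpow_one]

lemma aN_unit {m : ℕ} {γ : ZM m} (h : IsUnit γ) : aN (cR γ) = 1 := by
  unfold aN
  rw [cR_abs, un_abs h, Nat.cast_one, Real.one_rpow]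

lemma det_ne_of_aN {m : ℕ} (hm : 1 ≤ m) {a : Mat m} (h : 1 ≤ aN a) : a.det ≠ 0 := by
  intro h0
  unfold aN at h
  rw [h0, abs_zero, Real.zero_rpow (by positivity)] at h
  linarith

lemma k_uniq {k k' : ℤ} {x y : ℝ} (hx : 1 ≤ x) (hy' : y < Real.exp 1)
    (h : Real.exp (-(k : ℝ)) * x = Real.exp (-(k' : ℝ)) * y) : k' ≤ k := by
  by_contra hc
  have h1 : k + 1 ≤ k' := by omega
  have h2 : (k : ℝ) + 1 ≤ k' := by exact_mod_cast h1
  have h3 : Real.exp (-(k' : ℝ)) * y < Real.exp (-(k' : ℝ)) * Real.exp 1 :=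
    mul_lt_mul_of_pos_left hy' (Real.exp_pos _)
  rw [← Real.exp_add] at h3
  have h4 : Real.exp (-(k' : ℝ) + 1) ≤ Real.exp (-(k : ℝ)) := Real.exp_le_exp.2 (by linarith)
  have h5 : Real.exp (-(k : ℝ)) ≤ Real.exp (-(k : ℝ)) * x :=
    le_mul_of_one_le_right (Real.exp_pos _).le hx
  linarith

open Classical in
theorem pf_FR2 : T_HAR → T_MSR → T_UNZ → T_FR2 := by
  intro hHAR hMSR hUNZ m N _ hm1 hN2 H xv hF D hD f hf hinv hsc
  have hcZ : Countable (ZM m) := inferInstanceAs (Countable (Fin m → Fin m → ℤ))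
  have hSh : MeasurableSet (Shell m) := (hMSR.1 m).2.2.2.2.2.1
  have dH : ∀ v, Pr v → (cR (H v)).det ≠ 0 := fun v hv => cR_det_ne (by
    rw [hF.det v hv]; exact pow_ne_zero _ (NeZero.ne N))
  set a : VN m N → ℤ → Mat m := fun v k => Real.exp (-(k : ℝ)) • cR (H v) with ha
  have da : ∀ v, Pr v → ∀ k, (a v k).det ≠ 0 := by
    intro v hv k
    simp only [ha]
    rw [Matrix.det_smul]
    exact mul_ne_zero (pow_ne_zero _ (Real.exp_pos _).ne') (dH v hv)
  set Tm : VN m N → ℤ → {γ : ZM m // IsUnit γ} → V m → ENNReal := fun v k γ z =>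
    if lm (a v k)⁻¹ (lm (cR γ.1) z) ∈ D then f (lm (cR γ.1) z) (xv v) else 0 with hTm
  have mT : ∀ v k γ, Measurable (Tm v k γ) := by
    intro v k γ
    refine Measurable.ite ?_ ((hf (xv v)).comp (meas_lm _)) measurable_const
    exact ((meas_lm _).comp (meas_lm _)) hD.meas
  -- change of variables and unfolding
  have B : ∀ v, Pr v → ∀ k, ∫⁻ z in D, (if lm (a v k) z ∈ Shell m then
      f (lm (a v k) z) (xv v) else 0) ∂(hm m) = ∫⁻ z in D, ∑' γ, Tm v k γ z ∂(hm m) := by
    intro v hv k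
    have hinv1 : (a v k)⁻¹ * a v k = 1 :=
      Matrix.nonsing_inv_mul _ (isUnit_iff_ne_zero.2 (da v hv k))
    set F2 : V m → ENNReal := fun w => if lm (a v k)⁻¹ w ∈ D then f w (xv v) else 0 with hF2
    have mF2 : Measurable F2 :=
      Measurable.ite ((meas_lm _) hD.meas) (hf (xv v)) measurable_const
    have e1 : ∫⁻ z in D, (if lm (a v k) z ∈ Shell m then
        f (lm (a v k) z) (xv v) else 0) ∂(hm m) =
        ∫⁻ z, (Shell m).indicator F2 (fun i j => (a v k * mt z) i j) ∂(hm m) := by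
      rw [← lintegral_indicator hD.meas]
      refine lintegral_congr fun z => ?_
      have h1 : (fun i j => (a v k * mt z) i j : V m) = lm (a v k) z := rfl
      have h2 : lm (a v k)⁻¹ (lm (a v k) z) = z := by rw [lm_lm, hinv1, lm_one]
      rw [h1]
      by_cases hz : z ∈ D
      · rw [Set.indicator_of_mem hz]
        by_cases hs : lm (a v k) z ∈ Shell m
        · rw [Set.indicator_of_mem hs, if_pos hs]
          simp only [hF2]
          rw [h2, if_pos hz]
        · rw [Set.indicator_of_notMem hs, if_neg hs]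
      · rw [Set.indicator_of_notMem hz]
        by_cases hs : lm (a v k) z ∈ Shell m
        · rw [Set.indicator_of_mem hs]
          simp only [hF2]
          rw [h2, if_neg hz]
        · rw [Set.indicator_of_notMem hs]
    rw [e1, ((hHAR m hm1).1 (a v k) (da v hv k) ((Shell m).indicator F2)
      (mF2.indicator hSh)).1, lintegral_indicator hSh]
    exact (hUNZ m hm1 D hD).1 F2 mF2
  -- the pieces cover
  have Cv : ∀ v, Pr v → ∀ z ∈ D, f (lm (cR (H v)) z) (xv v) ≤ ∑' k : ℤ,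
      (if lm (a v k) z ∈ Shell m then f (lm (a v k) z) (xv v) else 0) := by
    intro v hv z hz
    have hz0 : (mt z).det ≠ 0 := det_ne_of_aN hm1 (hD.shell z hz).1
    have hp : 0 < aN (cR (H v) * mt z) := by
      unfold aN
      apply Real.rpow_pos_of_pos
      rw [abs_pos, Matrix.det_mul]
      exact mul_ne_zero (dH v hv) hz0
    set k : ℤ := ⌊Real.log (aN (cR (H v) * mt z))⌋ with hk
    have hs : lm (a v k) z ∈ Shell m := by
      have h1 : mt (lm (a v k) z) = Real.exp (-(k : ℝ)) • (cR (H v) * mt z) := by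
        rw [mt_lm]
        simp only [ha]
        rw [Matrix.smul_mul]
      show 1 ≤ aN (mt (lm (a v k) z)) ∧ aN (mt (lm (a v k) z)) < Real.exp 1
      rw [h1, aN_smul hm1 (Real.exp_pos _)]
      have h2 : (k : ℝ) ≤ Real.log (aN (cR (H v) * mt z)) := Int.floor_le _
      have h3 : Real.log (aN (cR (H v) * mt z)) < k + 1 := Int.lt_floor_add_one _
      have h4 : Real.exp (-(k : ℝ)) * aN (cR (H v) * mt z) =
          Real.exp (-(k : ℝ) + Real.log (aN (cR (H v) * mt z))) := by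
        rw [Real.exp_add, Real.exp_log hp]
      rw [h4]
      exact ⟨Real.one_le_exp (by linarith), Real.exp_lt_exp.2 (by linarith)⟩
    calc f (lm (cR (H v)) z) (xv v) = (if lm (a v k) z ∈ Shell m then
          f (lm (a v k) z) (xv v) else 0) := by
          rw [if_pos hs]
          simp only [ha]
          rw [lm_smul, hsc _ (Real.exp_pos _)]
      _ ≤ _ := ENNReal.le_tsum k
  -- the pieces do not overlap
  have Dj : ∀ z ∈ D, ∑ v : VN m N, (if Pr v then ∑' k : ℤ, ∑' γ, Tm v k γ z else 0) ≤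
      ∑ x : VN m N, (if Pr x then f z x else 0) := by
    intro z hz
    have hz0 : (mt z).det ≠ 0 := det_ne_of_aN hm1 (hD.shell z hz).1
    set g : VN m N → ENNReal := fun x => if Pr x then f z x else 0 with hg
    set S : Set (VN m N × ℤ × {γ : ZM m // IsUnit γ}) :=
      {i | Pr i.1 ∧ lm (a i.1 i.2.1)⁻¹ (lm (cR i.2.2.1) z) ∈ D} with hS
    set X : VN m N × ℤ × {γ : ZM m // IsUnit γ} → VN m N :=
      fun i => ac N (i.2.2.1)⁻¹ (xv i.1) with hX
    have hXa : ∀ i : VN m N × ℤ × {γ : ZM m // IsUnit γ}, ac N i.2.2.1 (X i) = xv i.1 := by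
      intro i
      simp only [hX]
      rw [← ac_mul, Matrix.mul_nonsing_inv _ (un_det i.2.2.2), ac_one]
    have e1 : ∑ v : VN m N, (if Pr v then ∑' k : ℤ, ∑' γ, Tm v k γ z else 0) =
        ∑' i, S.indicator (fun i => g (X i)) i := by
      rw [ENNReal.tsum_prod', tsum_fintype]
      refine Finset.sum_congr rfl fun v _ => ?_
      by_cases hv : Pr v
      · rw [if_pos hv, ENNReal.tsum_prod']
        refine tsum_congr fun k => tsum_congr fun γ => ?_
        simp only [hTm]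
        by_cases hd : lm (a v k)⁻¹ (lm (cR γ.1) z) ∈ D
        · rw [if_pos hd, Set.indicator_of_mem (show (v, k, γ) ∈ S from ⟨hv, hd⟩)]
          have h1 : Pr (X (v, k, γ)) := by
            apply pr_of_ac γ.1
            rw [hXa (v, k, γ)]
            exact hF.pr v hv
          simp only [hg]
          rw [if_pos h1, ← hinv γ.1 γ.2 z (X (v, k, γ)) hz0, hXa (v, k, γ)]
          rfl
        · rw [if_neg hd, Set.indicator_of_notMem (fun h => hd h.2)]
      · rw [if_neg hv]
        symm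
        rw [ENNReal.tsum_eq_zero]
        intro p
        exact Set.indicator_of_notMem (fun h => hv h.1) _
    rw [e1, ← tsum_subtype S (fun i => g (X i)), ← tsum_fintype (L := SummationFilter.unconditional _)]
    refine ENNReal.tsum_comp_le_tsum_of_injective (f := fun i : S => X i.1) ?_ g
    rintro ⟨⟨v, k, γ⟩, hv, hd⟩ ⟨⟨v', k', γ'⟩, hv', hd'⟩ hxx
    have key : ∀ (v : VN m N) (k : ℤ) (γ : {γ : ZM m // IsUnit γ}), Pr v →
        cR γ.1 * mt z = Real.exp (-(k : ℝ)) •
          (cR (H v) * mt (lm (a v k)⁻¹ (lm (cR γ.1) z))) := by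
      intro v k γ hv
      have h1 : a v k * (a v k)⁻¹ = 1 :=
        Matrix.mul_nonsing_inv _ (isUnit_iff_ne_zero.2 (da v hv k))
      rw [mt_lm, mt_lm, ← Matrix.smul_mul]
      show _ = a v k * ((a v k)⁻¹ * (cR γ.1 * mt z))
      rw [← Matrix.mul_assoc, h1, Matrix.one_mul]
    have k1 := key v k γ hv
    have k2 := key v' k' γ' hv'
    have aH : ∀ v, Pr v → aN (cR (H v)) = ((N ^ (m - 1) : ℕ) : ℝ) ^ (1 / (m : ℝ)) := by
      intro v hv
      unfold aN
      rw [cR_abs, hF.det v hv]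
    have hkp : (0 : ℝ) < ((N ^ (m - 1) : ℕ) : ℝ) ^ (1 / (m : ℝ)) := by
      apply Real.rpow_pos_of_pos
      have : 0 < N := by omega
      positivity
    have a1 := congrArg aN k1
    have a2 := congrArg aN k2
    rw [aN_mul, aN_unit γ.2, aN_smul hm1 (Real.exp_pos _), aN_mul, aH v hv] at a1
    rw [aN_mul, aN_unit γ'.2, aN_smul hm1 (Real.exp_pos _), aN_mul, aH v' hv'] at a2
    have a3 : Real.exp (-(k : ℝ)) * aN (mt (lm (a v k)⁻¹ (lm (cR γ.1) z))) =
        Real.exp (-(k' : ℝ)) * aN (mt (lm (a v' k')⁻¹ (lm (cR γ'.1) z))) := by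
      have := a1.symm.trans a2
      have h5 : ((N ^ (m - 1) : ℕ) : ℝ) ^ (1 / (m : ℝ)) *
          (Real.exp (-(k : ℝ)) * aN (mt (lm (a v k)⁻¹ (lm (cR γ.1) z)))) =
          ((N ^ (m - 1) : ℕ) : ℝ) ^ (1 / (m : ℝ)) *
          (Real.exp (-(k' : ℝ)) * aN (mt (lm (a v' k')⁻¹ (lm (cR γ'.1) z)))) := by
        linarith
      exact mul_left_cancel₀ hkp.ne' h5
    have kk1 : k' ≤ k := k_uniq (hD.shell _ hd).1 (hD.shell _ hd').2 a3
    have kk2 : k ≤ k' := k_uniq (hD.shell _ hd').1 (hD.shell _ hd).2 a3.symm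
    have hkk : k = k' := le_antisymm kk2 kk1
    subst hkk
    have hx1 : ac N γ.1 (X (v, k, γ)) = xv v := hXa (v, k, γ)
    have hx2 : ac N γ'.1 (X (v, k, γ)) = xv v' := by
      have : X (v, k, γ) = X (v', k, γ') := hxx
      rw [this]
      exact hXa (v', k, γ')
    obtain ⟨u1, u2⟩ := uniq hF hD hv hv' γ.2 γ'.2 (Real.exp_pos _) hd hd' k1 k2 hx1 hx2
    have u3 : γ = γ' := Subtype.ext u2
    subst u1
    subst u3
    rfl
  -- the end
  calc ∫⁻ z in D, ∑ v : VN m N, (if Pr v then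
        f (fun i j => (cR (H v) * mt z) i j) (xv v) else 0) ∂(hm m)
      = ∑ v : VN m N, ∫⁻ z in D, (if Pr v then f (lm (cR (H v)) z) (xv v) else 0) ∂(hm m) := by
        rw [lintegral_finsetSum]
        · rfl
        · intro v _
          by_cases hv : Pr v
          · simp only [if_pos hv]
            exact (hf (xv v)).comp (meas_lm _)
          · simp only [if_neg hv]
            exact measurable_const
    _ ≤ ∑ v : VN m N, ∫⁻ z in D, (if Pr v then ∑' k : ℤ, ∑' γ, Tm v k γ z else 0) ∂(hm m) := by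
        refine Finset.sum_le_sum fun v _ => ?_
        by_cases hv : Pr v
        · simp only [if_pos hv]
          calc ∫⁻ z in D, f (lm (cR (H v)) z) (xv v) ∂(hm m)
              ≤ ∫⁻ z in D, ∑' k : ℤ, (if lm (a v k) z ∈ Shell m then
                f (lm (a v k) z) (xv v) else 0) ∂(hm m) := setLIntegral_mono' hD.meas (Cv v hv)
            _ = ∑' k : ℤ, ∫⁻ z in D, (if lm (a v k) z ∈ Shell m then
                f (lm (a v k) z) (xv v) else 0) ∂(hm m) := by
                rw [lintegral_tsum]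
                intro k
                exact (Measurable.ite ((meas_lm _) hSh) ((hf (xv v)).comp (meas_lm _))
                  measurable_const).aemeasurable
            _ = ∑' k : ℤ, ∫⁻ z in D, ∑' γ, Tm v k γ z ∂(hm m) := tsum_congr fun k => B v hv k
            _ = _ := by
                rw [lintegral_tsum]
                intro k
                exact (Measurable.ennreal_tsum fun γ => mT v k γ).aemeasurable
        · simp only [if_neg hv]
          exact le_rfl
    _ = ∫⁻ z in D, ∑ v : VN m N, (if Pr v then ∑' k : ℤ, ∑' γ, Tm v k γ z else 0) ∂(hm m) := by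
        rw [lintegral_finsetSum]
        intro v _
        by_cases hv : Pr v
        · simp only [if_pos hv]
          exact Measurable.ennreal_tsum fun k => Measurable.ennreal_tsum fun γ => mT v k γ
        · simp only [if_neg hv]
          exact measurable_const
    _ ≤ ∫⁻ z in D, ∑ x : VN m N, (if Pr x then f z x else 0) ∂(hm m) :=
        setLIntegral_mono' hD.meas Dj

end Pool.Agent.H27.L1.H84.GU
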